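import Pool.Agent.Y546.SH.Big

/-!
# The degrees of spaces and the separation axioms between Hausdorff and submetrizable

Let `S(n)` be the separation axiom: for all `x ≠ y` there are open sets `U 0, …, U (n - 1)`, each
containing the closure of the preceding one, such that `x` is in `U 0` and `y` is not in the closure
of `U (n - 1)`. So `S(1)` is the Hausdorff axiom, `S(2)` is `T_2.5` (Urysohn), and functionally
Hausdorff spaces (for instance submetrizable spaces) have all the properties `S(n)`.

For every `n ≥ 1` there is a represented space `X` with `S(n)` such that for every represented space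
`Y` with `S(n + 1)` some point of `X` is not of `Y`-degree. The case `n = 2` is a positive answer to
Q1 with `S(3)` in place of submetrizable. There is also a represented space `X` with all the
properties `S(n)` such that for every represented functionally Hausdorff space `Y` some point of `X`
is not of `Y`-degree. In all cases every nonempty open subset of `X` has continuum many such points,
reducibility by means of the members of any given countable family of enumeration operators (for
instance all operators that are c.e. in a given oracle) may be considered, and no nonempty open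
subset of `X` is covered, up to fewer than continuum many points, by countably many subspaces with
`S(n + 1)` (functionally Hausdorff subspaces, respectively).

Idea. `X` is the countable power of a countable space with two special points, from one of which the
other one can be reached by `n` passages to the closure. If countably many subsets cover too many
points then one of them is dense in a basic open set (for the discrete topology on the factor) and
contains two points `x ≠ x'` in this set such that `x i = x' i` or `x i`, `x' i` are the first and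
the second special point, for each `i`; such pairs are found in a chain of continuum many points.
The `n` passages to the closure can be made inside the subset, simultaneously at all coordinates.
-/

set_option autoImplicit false

namespace Pool.Agent.Results.MP_f6a885_lc.SeparationHierarchy

open TopologicalSpace Topology

open Pool.Agent.H454R3.EDeg (EEqv Nbase app)

universe u

/-- The separation axiom `S(n)`. -/
def IsS (n : ℕ) (X : Type*) [TopologicalSpace X] : Prop :=
  ∀ x y : X, x ≠ y → ∃ U : ℕ → Set X, (∀ i, IsOpen (U i)) ∧ x ∈ U 0 ∧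
    (∀ i, i + 1 < n → closure (U i) ⊆ U (i + 1)) ∧ y ∉ closure (U (n - 1))

/-- Functionally Hausdorff spaces. -/
def IsFH (X : Type*) [TopologicalSpace X] : Prop :=
  ∀ x y : X, x ≠ y → ∃ f : X → ℝ, Continuous f ∧ f x ≠ f y

/-- The topology of `Y` contains a metrizable topology. -/
def Submetrizable (Y : Type*) [t : TopologicalSpace Y] : Prop :=
  ∃ t' : TopologicalSpace Y, t ≤ t' ∧ @MetrizableSpace Y t'

/-- `A` is obtained from `B` by a member of the family `F` of enumeration operators. -/
def RedBy (F : Set (Set (ℕ × ℕ))) (A B : Set ℕ) : Prop := ∃ Φ ∈ F, A = app Φ B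

/-- Every nonempty open subset of the represented space `X` has continuum many points which are not
of `Y`-degree; the same with the members of an arbitrary countable family of enumeration operators
in place of the c.e. ones. -/
def NotCovered {X : Type} [TopologicalSpace X] (β : ℕ → Set X) {Y : Type u} (U : ℕ → Set Y) :
    Prop :=
  ∀ O : Set X, IsOpen O → O.Nonempty →
    Cardinal.continuum ≤ Cardinal.mk ↥{x ∈ O | ∀ y : Y, ¬ EEqv (Nbase U y) (Nbase β x)} ∧
    ∀ F : Set (Set (ℕ × ℕ)), F.Countable →
      Cardinal.continuum ≤ Cardinal.mk ↥{x ∈ O | ∀ y : Y,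
        ¬ (RedBy F (Nbase U y) (Nbase β x) ∧ RedBy F (Nbase β x) (Nbase U y))}

/-- No nonempty open subset of `X` is contained, up to fewer than continuum many points, in a union
of countably many subspaces with the property `P`. -/
def NotUnion (X : Type) [TopologicalSpace X] (P : Set X → Prop) : Prop :=
  ∀ A : ℕ → Set X, (∀ k, P (A k)) → ∀ O : Set X, IsOpen O → O.Nonempty →
    Cardinal.continuum ≤ Cardinal.mk ↥(O \ ⋃ k, A k)

theorem notCovered (p : ℕ∞) (hp : 1 ≤ p) (Y : Type u) [TopologicalSpace Y]
    (hNC : ∀ (A : Set (Pool.Agent.Y546.SH.Sp p)) (f : A → Y), Continuous f →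
      Function.Injective f → Pool.Agent.Y546.SH.NC p A)
    (U : ℕ → Set Y) (hU : IsTopologicalBasis (Set.range U)) :
    NotCovered (Pool.Agent.Y546.SH.base p) U := by
  intro O hO hne
  have key := fun (F : Set (Set (ℕ × ℕ))) (hF : F.Countable) =>
    Pool.Agent.Y546.SH.deg_big p hp Y hNC U hU F hF O hO hne
  refine ⟨?_, key⟩
  have h := key _ (Set.countable_range Pool.Agent.H454R3.EDeg.Op)
  refine h.trans (Cardinal.mk_le_mk_of_subset ?_)
  rintro x ⟨hx, hxy⟩
  refine ⟨hx, fun y hy => hxy y ?_⟩
  exact ⟨Pool.Agent.Y546.SH.ered_iff_redBy.1 hy.1, Pool.Agent.Y546.SH.ered_iff_redBy.1 hy.2⟩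

theorem nonempty_sp (p : ℕ∞) : Nonempty (Pool.Agent.Y546.SH.Sp p) :=
  show Nonempty (ℕ → Pool.Agent.Y546.SH.Pt) from ⟨fun _ => Pool.Agent.Y546.SH.Pt.o true⟩

theorem hierarchy (n : ℕ) (hn : 1 ≤ n) : ∃ (X : Type) (_ : TopologicalSpace X) (β : ℕ → Set X),
    Nonempty X ∧ IsTopologicalBasis (Set.range β) ∧ IsS n X ∧
      NotUnion X (fun A => IsS (n + 1) A) ∧
      ∀ (Y : Type u) [TopologicalSpace Y], IsS (n + 1) Y → ∀ U : ℕ → Set Y,
        IsTopologicalBasis (Set.range U) → NotCovered β U := by
  refine ⟨Pool.Agent.Y546.SH.Sp n, inferInstance, Pool.Agent.Y546.SH.base n, nonempty_sp n,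
    Pool.Agent.Y546.SH.isTopologicalBasis n, Pool.Agent.Y546.SH.isS_sp n n hn le_rfl, ?_, ?_⟩
  · intro A hA O hO hne
    exact Pool.Agent.Y546.SH.big n A (fun k => Pool.Agent.Y546.SH.nc_isS hn (hA k)) O hO hne
  · intro Y _ hY U hU
    exact notCovered n (by exact_mod_cast hn) Y (fun A f hf hi =>
      Pool.Agent.Y546.SH.nc_isS hn (Pool.Agent.Y546.SH.isS_of_inj hY f hf hi)) U hU

theorem result :
    -- the hierarchy
    (∀ n : ℕ, 1 ≤ n → ∃ (X : Type) (_ : TopologicalSpace X) (β : ℕ → Set X),
      Nonempty X ∧ IsTopologicalBasis (Set.range β) ∧ IsS n X ∧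
      NotUnion X (fun A => IsS (n + 1) A) ∧
      ∀ (Y : Type u) [TopologicalSpace Y], IsS (n + 1) Y → ∀ U : ℕ → Set Y,
        IsTopologicalBasis (Set.range U) → NotCovered β U) ∧
    -- its limit
    (∃ (X : Type) (_ : TopologicalSpace X) (β : ℕ → Set X),
      Nonempty X ∧ IsTopologicalBasis (Set.range β) ∧ (∀ n, IsS n X) ∧
      NotUnion X (fun A => IsFH A) ∧
      ∀ (Y : Type u) [TopologicalSpace Y], IsFH Y → ∀ U : ℕ → Set Y,
        IsTopologicalBasis (Set.range U) → NotCovered β U) ∧
    -- the answer to Q1
    (∃ (X : Type) (_ : TopologicalSpace X) (_ : T25Space X) (β : ℕ → Set X),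
      Nonempty X ∧ IsTopologicalBasis (Set.range β) ∧
      ∀ (Y : Type u) [TopologicalSpace Y], Submetrizable Y ∨ IsS 3 Y → ∀ U : ℕ → Set Y,
        IsTopologicalBasis (Set.range U) → NotCovered β U) := by
  refine ⟨hierarchy, ?_, ?_⟩
  · refine ⟨Pool.Agent.Y546.SH.Sp ⊤, inferInstance, Pool.Agent.Y546.SH.base ⊤, nonempty_sp ⊤,
      Pool.Agent.Y546.SH.isTopologicalBasis ⊤, ?_, ?_, ?_⟩
    · intro n
      rcases Nat.eq_zero_or_pos n with rfl | hn
      · have h1 := Pool.Agent.Y546.SH.isS_sp ⊤ 1 le_rfl le_top
        intro x y hne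
        obtain ⟨U, h2, h3, -, h4⟩ := h1 x y hne
        exact ⟨U, h2, h3, fun i hi => absurd hi (by omega), h4⟩
      · exact Pool.Agent.Y546.SH.isS_sp ⊤ n hn le_top
    · intro A hA O hO hne
      exact Pool.Agent.Y546.SH.big ⊤ A (fun k => Pool.Agent.Y546.SH.nc_isFH (hA k)) O hO hne
    · intro Y _ hY U hU
      exact notCovered ⊤ le_top Y (fun A f hf hi =>
        Pool.Agent.Y546.SH.nc_isFH (Pool.Agent.Y546.SH.isFH_of_inj hY f hf hi)) U hU
  · obtain ⟨X, tX, β, h0, h1, h2, -, h4⟩ := hierarchy.{u} 2 (by omega)
    refine ⟨X, tX, Pool.Agent.Y546.SH.isS_two_iff.1 h2, β, h0, h1, fun Y _ hY U hU => ?_⟩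
    refine h4 Y ?_ U hU
    rcases hY with hY | hY
    · exact Pool.Agent.Y546.SH.isS_of_isFH (Pool.Agent.Y546.SH.isFH_of_submetrizable hY) 3
    · exact hY

end Pool.Agent.Results.MP_f6a885_lc.SeparationHierarchy
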